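import Mathlib

namespace Pool.Agent.Results.MP_75e066_al.StrSubnormal

universe u

/-- A hypergroup on `H`: a product `H × H → Set H` (extended to sets elementwise), an element `one`
and a map `star` satisfying the axioms (H1), (H2), (H3). -/
structure Hypergroup (H : Type u) where
  /-- the product `pq`, a subset of `H` -/
  mul : H → H → Set H
  /-- the neutral element `1` -/
  one : H
  /-- `s ↦ s*` -/
  star : H → H
  /-- (H1): `p(qr) = (pq)r`, where `p(qr)` is the union of the `ps`, `s ∈ qr`, and `(pq)r` is the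
  union of the `sr`, `s ∈ pq` -/
  assoc : ∀ p q r : H, {x : H | ∃ s ∈ mul q r, x ∈ mul p s} = {x : H | ∃ s ∈ mul p q, x ∈ mul s r}
  /-- (H2): `s1 = {s}` -/
  mul_one : ∀ s : H, mul s one = {s}
  /-- (H3) -/
  star_spec : ∀ p q r : H, r ∈ mul p q → q ∈ mul (star p) r ∧ p ∈ mul r (star q)

namespace Hypergroup

variable {H : Type u} (S : Hypergroup H)

/-- The product `PQ` of two subsets of `H`: the union of the `pq` with `p ∈ P`, `q ∈ Q`. -/
def setMul (P Q : Set H) : Set H := {x | ∃ p ∈ P, ∃ q ∈ Q, x ∈ S.mul p q}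

/-- `F` is closed: `F` is nonempty and `F* F ⊆ F`. -/
def Closed (F : Set H) : Prop := F.Nonempty ∧ S.setMul (S.star '' F) F ⊆ F

/-- `F` is normal in `K` (where `F ⊆ K`): `Fh ⊆ hF` for every `h ∈ K`. -/
def NormalIn (F K : Set H) : Prop := F ⊆ K ∧ ∀ h ∈ K, S.setMul F {h} ⊆ S.setMul {h} F

/-- `F` is strongly normal in `K` (where `F ⊆ K`): `h* F h ⊆ F` for every `h ∈ K`. -/
def StronglyNormalIn (F K : Set H) : Prop :=
  F ⊆ K ∧ ∀ h ∈ K, S.setMul (S.setMul {S.star h} F) {h} ⊆ F

/-- `F` is subnormal in `H`: there are `n ≥ 1` and closed subsets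
`F = C 0 ⊆ C 1 ⊆ ⋯ ⊆ C n = H` with `C i` normal in `C (i + 1)`. -/
def Subnormal (F : Set H) : Prop :=
  ∃ (n : ℕ) (C : ℕ → Set H), 1 ≤ n ∧ C 0 = F ∧ C n = Set.univ ∧ (∀ i ≤ n, S.Closed (C i)) ∧
    ∀ i < n, S.NormalIn (C i) (C (i + 1))

/-- `F` is strongly subnormal in `H`: there are `n ≥ 1` and closed subsets
`F = C 0 ⊆ C 1 ⊆ ⋯ ⊆ C n = H` with `C i` strongly normal in `C (i + 1)`. -/
def StronglySubnormal (F : Set H) : Prop :=
  ∃ (n : ℕ) (C : ℕ → Set H), 1 ≤ n ∧ C 0 = F ∧ C n = Set.univ ∧ (∀ i ≤ n, S.Closed (C i)) ∧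
    ∀ i < n, S.StronglyNormalIn (C i) (C (i + 1))

/-- The element `h^F = FhF` of the quotient `H//F`, as a subset of `H`. -/
def coset (F : Set H) (h : H) : Set H := S.setMul (S.setMul F {h}) F

/-- The product `a^F · b^F = {x^F : x ∈ aFb}` in the quotient `H//F`. -/
def quotMul (F : Set H) (a b : H) : Set (Set H) :=
  {X | ∃ x ∈ S.setMul (S.setMul {a} F) {b}, X = S.coset F x}

/-- The upper central series: `Z_0 = {1}` and `Z_{i+1}` is the set of those `h` for which
`h^{Z_i}` lies in the centre of `H//Z_i`, i.e. `h^{Z_i}` commutes with every `x^{Z_i}` and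
`(h^{Z_i})* h^{Z_i} = {1^{Z_i}}`. -/
def upper : ℕ → Set H
  | 0 => {S.one}
  | i + 1 => {h | (∀ x : H, S.quotMul (upper i) h x = S.quotMul (upper i) x h) ∧
      S.quotMul (upper i) (S.star h) h = {S.coset (upper i) S.one}}

/-- `H` is weakly nilpotent: `Z_n = H` for some `n`. -/
def WeaklyNilpotent : Prop := ∃ n : ℕ, S.upper n = Set.univ

end Hypergroup

/-! ### The example: 16 elements, the double cosets of a subgroup of order 2 in the Frobenius group
`𝔽₈ ⋊ C₇` of order 56 -/

/-- The multiplication table: bit `x` of the 16-bit entry `(p, q)` says whether `x ∈ pq`. -/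
def tab : ℕ :=
  0x300030000c000c000300030000400080003000300005000a4000400080008000300030000c000c00030003000080004000300030000a00058000800040004000040008000300030000c000c00030003000090006c000c0001000200010002000080004000300030000c000c00030003000060009c000c00020001000200010000300030000c000c00030003000090006c000c0001000200004000400080008000300030000c000c00030003000060009c000c00020001000080008000400040000c000c0001000200003000cc000c000300030000c000c00020001000100020000c000c000200010000c0003c000c000300030000c000c000100020002000100003000300005000a40008000300030000c000c0003000300008000400040008000300030000a000580004000300030000c000c000300030000400080008000400003000cc000c000300030000c000c000100020000c000c00010002000100020000c0003c000c000300030000c000c000200010000c000c000200010002000104000800020001000080004000100020000400080001000200001000200040008800040001000200004000800010002000080004000100020000200010008000440008000100020000400080002000100004000800020001000040008000100028000400020001000080004000200010000800040002000100008000400020001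

/-- The `(p, q)` entry of the table as a 16-bit mask. -/
def ent (p q : ℕ) : ℕ := (tab >>> (256 * p + 16 * q)) % 65536

/-- The map `s ↦ s*`. -/
def st (p : Fin 16) : Fin 16 :=
  (![0, 1, 2, 3, 14, 15, 12, 13, 10, 11, 8, 9, 6, 7, 4, 5] : Fin 16 → Fin 16) p

/-- Bitwise or of the `f s`, `s < k`, over the bits `s` of `m`. -/
def orAll (m : ℕ) (f : ℕ → ℕ) : ℕ → ℕ
  | 0 => 0
  | k + 1 => (if m.testBit k then f k else 0) ||| orAll m f k

theorem testBit_orAll (m : ℕ) (f : ℕ → ℕ) (k x : ℕ) :
    (orAll m f k).testBit x = true ↔ ∃ s < k, m.testBit s = true ∧ (f s).testBit x = true := by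
  induction k with
  | zero => simp [orAll]
  | succ k ih =>
    rw [orAll, Nat.testBit_or, Bool.or_eq_true, ih]
    constructor
    · rintro (h | ⟨s, hs, h⟩)
      · by_cases hm : m.testBit k = true
        · rw [if_pos hm] at h
          exact ⟨k, Nat.lt_succ_self k, hm, h⟩
        · rw [if_neg hm] at h
          simp at h
      · exact ⟨s, Nat.lt_succ_of_lt hs, h⟩
    · rintro ⟨s, hs, h1, h2⟩
      rcases Nat.lt_succ_iff_lt_or_eq.1 hs with h | h
      · exact Or.inr ⟨s, h, h1, h2⟩
      · subst h
        left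
        rw [if_pos h1]
        exact h2

/-- Check of associativity. -/
def assocCheck : Bool :=
  (List.range 16).all fun p => (List.range 16).all fun q => (List.range 16).all fun r =>
    orAll (ent q r) (fun s => ent p s) 16 == orAll (ent p q) (fun s => ent s r) 16

theorem assocCheck_eq : assocCheck = true := by decide +kernel

/-- Check of (H3). -/
theorem star_check : ∀ p q r : Fin 16, (ent p q).testBit r = true →
    (ent (st p) r).testBit q = true ∧ (ent r (st q)).testBit p = true := by decide +kernel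

theorem one_check : ∀ s x : Fin 16, (ent s 0).testBit x = true ↔ x = s := by decide +kernel

theorem assoc_bits (p q r : Fin 16) :
    orAll (ent q r) (fun s => ent p s) 16 = orAll (ent p q) (fun s => ent s r) 16 := by
  have h := assocCheck_eq
  unfold assocCheck at h
  rw [List.all_eq_true] at h
  have h1 := h p (List.mem_range.2 p.2)
  rw [List.all_eq_true] at h1
  have h2 := h1 q (List.mem_range.2 q.2)
  rw [List.all_eq_true] at h2
  have h3 := h2 r (List.mem_range.2 r.2)
  exact beq_iff_eq.1 h3

/-- The hypergroup with 16 elements. -/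
def ex : Hypergroup (Fin 16) where
  mul p q := {x | (ent p q).testBit x = true}
  one := 0
  star := st
  assoc p q r := by
    ext x
    have h : (orAll (ent q r) (fun s => ent p s) 16).testBit x =
        (orAll (ent p q) (fun s => ent s r) 16).testBit x :=
      congrArg (fun m => m.testBit x) (assoc_bits p q r)
    constructor
    · rintro ⟨s, hs, hx⟩
      have h1 : (orAll (ent q r) (fun s => ent p s) 16).testBit x = true :=
        (testBit_orAll _ _ _ _).2 ⟨s, s.2, hs, hx⟩
      rw [h] at h1
      obtain ⟨t, ht, h2, h3⟩ := (testBit_orAll _ _ _ _).1 h1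
      exact ⟨⟨t, ht⟩, h2, h3⟩
    · rintro ⟨s, hs, hx⟩
      have h1 : (orAll (ent p q) (fun s => ent s r) 16).testBit x = true :=
        (testBit_orAll _ _ _ _).2 ⟨s, s.2, hs, hx⟩
      rw [← h] at h1
      obtain ⟨t, ht, h2, h3⟩ := (testBit_orAll _ _ _ _).1 h1
      exact ⟨⟨t, ht⟩, h2, h3⟩
  mul_one s := by
    ext x
    exact one_check s x
  star_spec p q r h := star_check p q r h

theorem mem_mul (p q x : Fin 16) : x ∈ ex.mul p q ↔ (ent p q).testBit x = true := Iff.rfl

/-- The normal subgroup of order 4 (the elements `0, 1, 2, 3`). -/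
def V : Set (Fin 16) := {x | (x : ℕ) < 4}

theorem closed_univ : ex.Closed Set.univ := ⟨⟨0, trivial⟩, fun _ _ => trivial⟩

theorem closed_V : ex.Closed V := by
  refine ⟨⟨0, show ((0 : Fin 16) : ℕ) < 4 by decide⟩, ?_⟩
  rintro x ⟨_, ⟨a, ha, rfl⟩, b, hb, hx⟩
  have key : ∀ a b x : Fin 16, (a : ℕ) < 4 → (b : ℕ) < 4 → (ent (st a) b).testBit x = true →
      (x : ℕ) < 4 := by decide +kernel
  exact key a b x ha hb hx

theorem univ_normal : ex.NormalIn Set.univ Set.univ := by
  refine ⟨fun _ _ => trivial, ?_⟩
  rintro h - x -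
  -- `x ∈ h (h* x)`
  have key : ∀ h x : Fin 16, ∃ q : Fin 16, (ent h q).testBit x = true := by decide +kernel
  obtain ⟨q, hq⟩ := key h x
  exact ⟨h, rfl, q, trivial, hq⟩

theorem univ_snormal : ex.StronglyNormalIn Set.univ Set.univ :=
  ⟨fun _ _ => trivial, fun _ _ _ _ => trivial⟩

theorem V_normal : ex.NormalIn V Set.univ := by
  refine ⟨fun _ _ => trivial, ?_⟩
  rintro h - x ⟨a, ha, b, hb, hx⟩
  rw [Set.mem_singleton_iff] at hb
  subst hb
  have key : ∀ a b x : Fin 16, (a : ℕ) < 4 → (ent a b).testBit x = true →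
      ∃ c : Fin 16, (c : ℕ) < 4 ∧ (ent b c).testBit x = true := by decide +kernel
  obtain ⟨c, hc, h2⟩ := key a b x ha hx
  exact ⟨b, rfl, c, hc, h2⟩

theorem V_snormal : ex.StronglyNormalIn V Set.univ := by
  refine ⟨fun _ _ => trivial, ?_⟩
  rintro h - x ⟨a, ⟨b, hb, c, hc, ha⟩, d, hd, hx⟩
  rw [Set.mem_singleton_iff] at hb hd
  subst hb
  subst hd
  have key : ∀ d : Fin 16, ∀ c : Fin 16, (c : ℕ) < 4 → ∀ a : Fin 16,
      (ent (st d) c).testBit a = true → ∀ x : Fin 16, (ent a d).testBit x = true →
      (x : ℕ) < 4 := by decide +kernel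
  exact key d c hc a ha x hx

theorem sub_normal {F : Set (Fin 16)} (hF : F ⊆ V) : ex.NormalIn F V := by
  refine ⟨hF, ?_⟩
  rintro h hh x ⟨a, ha, b, hb, hx⟩
  rw [Set.mem_singleton_iff] at hb
  subst hb
  have key : ∀ a b x : Fin 16, (a : ℕ) < 4 → (b : ℕ) < 4 → (ent a b).testBit x = true →
      (ent b a).testBit x = true := by decide +kernel
  exact ⟨b, rfl, a, ha, key a b x (hF ha) hh hx⟩

theorem sub_snormal {F : Set (Fin 16)} (hF : F ⊆ V) : ex.StronglyNormalIn F V := by
  refine ⟨hF, ?_⟩
  rintro h hh x ⟨a, ⟨b, hb, c, hc, ha⟩, d, hd, hx⟩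
  rw [Set.mem_singleton_iff] at hb hd
  subst hb
  subst hd
  have key : ∀ d : Fin 16, (d : ℕ) < 4 → ∀ c : Fin 16, (c : ℕ) < 4 → ∀ a : Fin 16,
      (ent (st d) c).testBit a = true → ∀ x : Fin 16, (ent a d).testBit x = true →
      x = c := by decide +kernel
  rw [key d hh c (hF hc) a ha x hx]
  exact hc

/-- One closure step on masks: `m ↦ m ∪ m* m`. -/
def step (m : ℕ) : ℕ :=
  m ||| orAll m (fun p => orAll m (fun q => ent (if h : p < 16 then (st ⟨p, h⟩ : ℕ) else 0) q) 16) 16

theorem step_sub {F : Set (Fin 16)} (hF : ex.Closed F) {m : ℕ}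
    (hm : ∀ x : Fin 16, m.testBit x = true → x ∈ F) :
    ∀ x : Fin 16, (step m).testBit x = true → x ∈ F := by
  intro x hx
  rw [step, Nat.testBit_or, Bool.or_eq_true] at hx
  rcases hx with hx | hx
  · exact hm x hx
  · obtain ⟨p, hp, h1, h2⟩ := (testBit_orAll _ _ _ _).1 hx
    obtain ⟨q, hq, h3, h4⟩ := (testBit_orAll _ _ _ _).1 h2
    rw [dif_pos hp] at h4
    exact hF.2 ⟨st ⟨p, hp⟩, ⟨⟨p, hp⟩, hm ⟨p, hp⟩ h1, rfl⟩, ⟨q, hq⟩, hm ⟨q, hq⟩ h3, h4⟩

/-- A closed subset not contained in `V` is everything. -/
theorem closed_cases {F : Set (Fin 16)} (hF : ex.Closed F) : F ⊆ V ∨ F = Set.univ := by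
  by_cases h : F ⊆ V
  · exact Or.inl h
  · right
    obtain ⟨y, hy, hyV⟩ := Set.not_subset.1 h
    have h0 : ∀ x : Fin 16, (2 ^ (y : ℕ)).testBit x = true → x ∈ F := by
      intro x hx
      rw [Nat.testBit_two_pow] at hx
      have : y = x := Fin.ext (by simpa using hx)
      rw [← this]
      exact hy
    have h1 := step_sub hF h0
    have h2 := step_sub hF h1
    have h3 := step_sub hF h2
    have h4 := step_sub hF h3
    have key : ∀ y : Fin 16, 4 ≤ (y : ℕ) → ∀ x : Fin 16,
        (step (step (step (step (2 ^ (y : ℕ)))))).testBit x = true := by decide +kernel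
    have hy4 : 4 ≤ (y : ℕ) := by
      by_contra hlt
      exact hyV (by change (y : ℕ) < 4; omega)
    exact Set.eq_univ_of_forall fun x => h4 x (key y hy4 x)

theorem subnormal_all {F : Set (Fin 16)} (hF : ex.Closed F) :
    ex.Subnormal F ∧ ex.StronglySubnormal F := by
  rcases closed_cases hF with h | h
  · let C : ℕ → Set (Fin 16) := fun i => if i = 0 then F else if i = 1 then V else Set.univ
    have hC0 : C 0 = F := rfl
    have hC1 : C 1 = V := rfl
    have hC2 : C 2 = Set.univ := rfl
    have hcl : ∀ i ≤ 2, ex.Closed (C i) := by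
      intro i hi
      interval_cases i
      · exact hF
      · exact closed_V
      · exact closed_univ
    refine ⟨⟨2, C, by norm_num, hC0, hC2, hcl, ?_⟩, ⟨2, C, by norm_num, hC0, hC2, hcl, ?_⟩⟩
    · intro i hi
      interval_cases i
      · exact sub_normal h
      · exact V_normal
    · intro i hi
      interval_cases i
      · exact sub_snormal h
      · exact V_snormal
  · subst h
    refine ⟨⟨1, fun _ => Set.univ, le_rfl, rfl, rfl, fun _ _ => closed_univ, fun _ _ => univ_normal⟩,
      ⟨1, fun _ => Set.univ, le_rfl, rfl, rfl, fun _ _ => closed_univ, fun _ _ => univ_snormal⟩⟩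

theorem one_mul_check : ∀ s x : Fin 16, (ent 0 s).testBit x = true ↔ x = s := by decide +kernel

theorem one_setMul (h : Fin 16) : ex.setMul {ex.one} {h} = {h} := by
  ext x
  constructor
  · rintro ⟨p, hp, q, hq, hx⟩
    rw [Set.mem_singleton_iff] at hp hq
    subst hp
    subst hq
    exact (one_mul_check q x).1 hx
  · intro hx
    exact ⟨ex.one, rfl, h, rfl, (one_mul_check h x).2 hx⟩

theorem setMul_one (h : Fin 16) : ex.setMul {h} {ex.one} = {h} := by
  ext x
  constructor
  · rintro ⟨p, hp, q, hq, hx⟩
    rw [Set.mem_singleton_iff] at hp hq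
    subst hp
    subst hq
    exact (one_check p x).1 hx
  · intro hx
    exact ⟨h, rfl, ex.one, rfl, (one_check h x).2 hx⟩

theorem coset_one (h : Fin 16) : ex.coset {ex.one} h = {h} := by
  rw [Hypergroup.coset, one_setMul, setMul_one]

theorem quotMul_one (a b : Fin 16) : ex.quotMul {ex.one} a b = (fun x => {x}) '' ex.mul a b := by
  ext X
  rw [Hypergroup.quotMul, setMul_one]
  constructor
  · rintro ⟨x, ⟨p, hp, q, hq, hx⟩, rfl⟩
    rw [Set.mem_singleton_iff] at hp hq
    subst hp
    subst hq
    exact ⟨x, hx, (coset_one x).symm⟩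
  · rintro ⟨x, hx, rfl⟩
    exact ⟨x, ⟨a, rfl, b, rfl, hx⟩, (coset_one x).symm⟩

theorem inj_single : Function.Injective (fun x : Fin 16 => ({x} : Set (Fin 16))) :=
  fun _ _ h => Set.singleton_injective h

theorem upper_eq (n : ℕ) : ex.upper n = {ex.one} := by
  induction n with
  | zero => rfl
  | succ n ih =>
    ext h
    rw [Hypergroup.upper, ih]
    constructor
    · rintro ⟨h1, h2⟩
      have hc : ∀ x y : Fin 16, (ent h x).testBit y = true ↔ (ent x h).testBit y = true := by
        intro x y
        have h3 := h1 x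
        rw [quotMul_one, quotMul_one] at h3
        have h4 : ex.mul h x = ex.mul x h := inj_single.image_injective h3
        have h5 : y ∈ ex.mul h x ↔ y ∈ ex.mul x h := by rw [h4]
        exact h5
      have hs : ∀ y : Fin 16, (ent (st h) h).testBit y = true → y = 0 := by
        intro y hy
        rw [quotMul_one, coset_one] at h2
        have h3 : ({y} : Set (Fin 16)) ∈ (fun x => ({x} : Set (Fin 16))) '' ex.mul (ex.star h) h :=
          ⟨y, hy, rfl⟩
        rw [h2, Set.mem_singleton_iff] at h3
        exact Set.singleton_injective h3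
      have key : ∀ h : Fin 16, (∀ x y : Fin 16, (ent h x).testBit y = (ent x h).testBit y) →
          (∀ y : Fin 16, (ent (st h) h).testBit y = true → y = 0) → h = 0 := by decide +kernel
      exact key h (fun x y => Bool.eq_iff_iff.2 (hc x y)) hs
    · intro hh
      rw [Set.mem_singleton_iff] at hh
      subst hh
      refine ⟨fun x => ?_, ?_⟩
      · rw [quotMul_one, quotMul_one]
        congr 1
        ext y
        exact (one_mul_check x y).trans (one_check x y).symm
      · rw [quotMul_one, coset_one]
        have : ex.mul (ex.star ex.one) ex.one = {ex.one} := ex.mul_one _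
        rw [this, Set.image_singleton]

/-- There is a finite hypergroup (with 16 elements) in which every closed subset is subnormal, and
even strongly subnormal, but which is not weakly nilpotent: its upper central series is constant
`{1}`. -/
theorem result :
    ∃ (H : Type) (_ : Finite H) (S : Hypergroup H),
      (∀ F : Set H, S.Closed F → S.Subnormal F) ∧
      (∀ F : Set H, S.Closed F → S.StronglySubnormal F) ∧
      ¬ S.WeaklyNilpotent := by
  refine ⟨Fin 16, inferInstance, ex, fun F hF => (subnormal_all hF).1,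
    fun F hF => (subnormal_all hF).2, ?_⟩
  rintro ⟨n, hn⟩
  rw [upper_eq] at hn
  have h1 : (1 : Fin 16) ∈ ({ex.one} : Set (Fin 16)) := by
    rw [hn]
    trivial
  rw [Set.mem_singleton_iff] at h1
  exact absurd h1 (by decide)

end Pool.Agent.Results.MP_75e066_al.StrSubnormal
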